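import Pool.Agent.Lib.SE.E.Spec
import Pool.Agent.Lib.SE.Big.Main3
import Pool.Agent.Lib.SE.Q.Gg

/-!
# PROJECT SE-E, module Gg: the explicit class, the meagre sets (helper42)
-/

set_option autoImplicit false

open Module

noncomputable section

namespace SEE

open HC HC.E HC.SE SEB SEQ SE SEB.Pr3_aux

/-- The excluded sets are meagre. -/
theorem tMMe : ∀ m r, IsMeagre (MMe m r) := by
  intro m r
  by_cases h : Cle m r
  · obtain ⟨h1, h2⟩ := tPr4 m r h.cl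
    refine (thMeagre m r (fun _ => 1) h.2.2.1 h2 h1).mono ?_
    rintro s ⟨-, hs, hno⟩
    exact ⟨hs, hno⟩
  · have : MMe m r = ∅ := Set.eq_empty_of_forall_notMem fun s hs => h hs.1
    rw [this]
    exact IsMeagre.empty

namespace Gge_aux

theorem gfg {T : AV} {m r : ℕ} {D : Cyc T m} (h : GF1 D r) : GFg D r := by
  obtain ⟨s, hs⟩ := h.one
  have := h.hr
  refine ⟨h.hm, h.hr, h.dim, ⟨s, by omega, by omega, ?_⟩, h.ap, h.hit⟩
  omega

/-- New Jacobians. -/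
theorem new {G : AV} {m r : ℕ} {s : Fin (r + 1) → ℂ} (N : New G m s fun _ => 1) (hc : Cle m r)
    (hs : Function.Injective s)
    (h : r = 2 ∨ (m.Prime ∧ r + 1 < m ∧ EndQ G N.Z) ∨ s ∉ MMe m r) :
    IsCM G ∨ ∃ D : Cyc G m, GFg D r ∧ Kde D r ∧ D.Z = N.Z := by
  have hm : 3 ≤ m := hc.1
  have hcov : IsCov m s (fun _ => 1) := isCov_one' hm hc.2.2.2.1 hs
  have hsg' : ∀ D : Cyc G m, D.Z = N.Z → ∀ u : (ZMod m)ˣ,
      D.p u = sg m r (fun _ => 1) (u : ZMod m).val := fun D hD =>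
    tPnew tSg mods.Bas G m r s (fun _ => 1) hcov N D hD
  obtain ⟨D, hD⟩ := tAvg G m (by omega) N.Z N.lat N.cyc
  obtain ⟨hap, u, hum, huc, hu1, hu2, hu3⟩ := tPr4 m r hc.cl
  rcases h with h2 | ⟨hp, hrp, hE⟩ | hM
  · subst h2
    obtain ⟨v, hv⟩ := exists_unit hum huc
    have h3 := tSg m 2 s (fun _ => 1) hcov u hum huc
    have hone : ∃ s, D.p s = 1 := ⟨v, by rw [hsg' D hD, hv]; omega⟩
    have hA : Aper D := tAp G m 2 D (fun _ => 1) hm (hsg' D hD) hap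
    have hd : finrank ℂ G.V = Nat.totient m := by
      have := N.dim
      omega
    rcases good_two mods tA1 (tA2 tHm) tA3 tA4 D hm hd hone hA with h | h
    · exact Or.inl h
    · exact Or.inr ⟨D, gfg h, Or.inr ⟨hc, hsg' D hD⟩, hD⟩
  · rcases Gg_aux.new N hp hc.2.2.1 hrp hs (Or.inr (Or.inl hE)) with h | ⟨D, h1, -, h3⟩
    · exact Or.inl h
    · exact Or.inr ⟨D, gfg h1, Or.inr ⟨hc, hsg' D h3⟩, h3⟩
  · have h6 : ∀ T : AV, IsCov m s (fun _ => 1) → ∀ (N : New T m s fun _ => 1) (D : Cyc T m),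
        D.Z = N.Z → GFg D r := by
      by_contra h
      exact hM ⟨hc, hs, h⟩
    exact Or.inr ⟨D, h6 G hcov N D hD, Or.inr ⟨hc, hsg' D hD⟩, hD⟩

end Gge_aux

theorem tGge : S_Gge := by
  intro G hG
  rcases hG with ⟨m, Z, hP, h3, hE⟩ | ⟨m, r, s, N, hc, hs, h⟩
  · obtain ⟨D, h1, h2, h4⟩ := Gg_aux.pic hP h3 hE
    have hm : m = 3 ∨ m = 4 := hP.dim.imp And.left And.left
    refine Or.inr ⟨m, finrank ℂ G.V, D, Gge_aux.gfg h1, Or.inl ⟨hm, h3, h1.one⟩, Or.inl h4⟩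
  · rcases Gge_aux.new N hc hs h with h | ⟨D, h1, h2, h4⟩
    · exact Or.inl h
    · exact Or.inr ⟨m, r, D, h1, h2, Or.inr ⟨s, N, h4.symm, isCov_one' hc.1 hc.2.2.2.1 hs⟩⟩

end SEE
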