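import Pool.Agent.Lib.SE.E.Cp
import Pool.Agent.Lib.SE.E.Gg
import Pool.Agent.Lib.SE.Q.PTg
import Pool.Agent.Lib.SE.R.All

/-!
# PROJECT SE-E: the final theorem, larger class of `m`, without hypotheses (helper42, after
helper59's `SE/C/Fn.lean`)
-/

set_option autoImplicit false

open Module

noncomputable section

namespace SEE

open HC HC.E HC.SE SEB SEQ SE SER

open SEQ.Fn_aux in
/-- **THE FINAL THEOREM.** -/
theorem finE : FinE := by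
  refine ⟨MMe, tMMe, ?_⟩
  intro A B T N' G hA hG hB q N J j m Z E ψ hF hE hψ d c hc hS
  obtain ⟨Y, N₁', N₂, G₁, G₂, hG1, hG2, hY, hBY⟩ := tSpl (Gde MMe) IsRM A B N' G hG hB
  obtain ⟨A', q₁, N₁, R, k, hA', hR, hne, hYR⟩ := SEQ.tRep HC.E.tIsoInv
    (fun G => ∃ (m r : ℕ) (D : Cyc G m), GFg D r ∧ Kde D r ∧
      (IsPic G m D.Z ∨ ∃ (s : Fin (r + 1) → ℂ) (N : New G m s fun _ => 1),
        N.Z = D.Z ∧ IsCov m s fun _ => 1)) A Y N₁' G₁ hA (fun n => tGge (G₁ n) (hG1 n)) hY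
  choose m₁ r₁ D₁ h1 h2 h3 using hR
  have hFR : ∀ i, Fct (R i) (m₁ i) (D₁ i).Z := fun i => by
    rcases h3 i with h | ⟨s, N, hN, hc⟩
    · exact Or.inr h
    · exact Or.inl ⟨r₁ i, s, fun _ => 1, N, hc, hN⟩
  choose D hDZ hDψ using fun i => cyc_fct (hF i) (hE i)
  obtain rfl : (fun i => (D i).Z) = Z := funext hDZ
  obtain rfl : (fun i => (D i).ψ) = E := funext hDψ
  have hC : ∀ i i', i ≠ i' → Cpg (D₁ i) (D₁ i') (r₁ i) (r₁ i') := fun i i' _ =>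
    tCpe _ _ _ _ _ _ _ _ (h1 i) (h1 i') (h2 i) (h2 i')
  have hm1 : ∀ i, 3 ≤ m₁ i := fun i => (h1 i).hm
  have hDA : ∀ (J : AV) (m : ℕ) (Z : Module.End ℂ J.V) (R : J.V →ₗ[ℝ] J.V →ₗ[ℝ] ℝ),
      Fct J m Z → IsPol J Z R → HasDA (fun T m c => HC.SE.Alg2 T m c) m J Z R :=
    fun _ _ _ _ hF hP => SEP.hasDA s_da SEP.s_DAB hF hP
  have hHT : HT D₁ := fun h hh F hF' => hit_all D₁ h1 hC hne h hh F hF'
  exact tThR tHlT tLiR tThQ tLX tOp4 tHr tLiS tKuR tTrR tRg A' Y B T q₁ N₁ N₂ q N R k m₁ D₁ G₂ J j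
    m D ψ hA' hm1 (fun i => fct_three (hF i)) (fun i => hDA _ _ _ _ (hFR i) (isPol_cyc (D₁ i)))
    (fun i => hDA _ _ _ _ (hF i) (hE i))
    (fun h hh X hX => su_all D₁ h1 hC hne h hh X hX)
    (fun B₂ hB₂ => lrf q₁ R m₁ D₁ hm1 hHT (fun i => tP2e _ _ _ _ (h1 i) (h2 i)) B₂ hB₂)
    hG2 hYR hBY hψ d c hc hS

end SEE
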