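import Pool.Agent.Lib.SE.E.Spec
import Pool.Agent.Lib.SE.Big.Sp4
import Pool.Agent.Lib.SE.Big.Dim
import Pool.Agent.Lib.SE.Big.Pj
import Pool.Agent.Lib.SE.Big.Tw
import Pool.Agent.Lib.SE.Big.Bas

/-!
# PROJECT SE-E, modules Cp, P2: kinds are compatible (helper42)
-/

set_option autoImplicit false

open Module

noncomputable section

namespace SEE

open HC HC.E HC.SE SEB SEQ SE SEB.Pr3_aux

namespace Cpe_aux

/-- From a unit modulo `M` to a natural number. -/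
theorem nat_unit {m m' M : ℕ} (hM : m ∣ M) (hM' : m' ∣ M) (hM0 : M ≠ 0) (ρ : (ZMod M)ˣ)
    (h1 : ZMod.unitsMap hM ρ = 1) (h2 : ZMod.unitsMap hM' ρ ≠ 1) (h3 : ZMod.unitsMap hM' ρ ≠ -1) :
    ∃ ρ : ℕ, ρ.Coprime (m * m') ∧ (ρ : ZMod m) = 1 ∧ (ρ : ZMod m') ≠ 1 ∧ (ρ : ZMod m') ≠ -1 := by
  have : NeZero M := ⟨hM0⟩
  have hval : ∀ (k : ℕ) (hk : k ∣ M), (((ρ : ZMod M).val : ℕ) : ZMod k) =
      ((ZMod.unitsMap hk ρ : (ZMod k)ˣ) : ZMod k) := by
    intro k hk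
    rw [ZMod.unitsMap_val, ZMod.natCast_val]
  refine ⟨(ρ : ZMod M).val, ?_, ?_, ?_, ?_⟩
  · have hc : (ρ : ZMod M).val.Coprime M := ZMod.val_coe_unit_coprime ρ
    exact Nat.Coprime.mul_right (Nat.Coprime.coprime_dvd_right hM hc)
      (Nat.Coprime.coprime_dvd_right hM' hc)
  · rw [hval m hM, h1, Units.val_one]
  · rw [hval m' hM']
    exact fun h => h2 (Units.ext h)
  · rw [hval m' hM']
    exact fun h => h3 (Units.ext h)

/-- Different `m`. -/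
theorem diff {T T' : AV} {m m' r : ℕ} (D : Cyc T m) (D' : Cyc T' m') (hm : 3 ≤ m) (hm' : 3 ≤ m')
    (h4 : m % 4 ≠ 2) (h4' : m' % 4 ≠ 2) (hne : m ≠ m') (hr : (m = 3 ∨ m' = 3) → 3 ≤ r) :
    Cpg D D' r r := by
  by_cases h34 : m = 3 ∧ m' = 4
  · exact Or.inr (Or.inr (Or.inr (Or.inr (Or.inl ⟨hr (Or.inl h34.1), Or.inl h34⟩))))
  by_cases h43 : m = 4 ∧ m' = 3
  · exact Or.inr (Or.inr (Or.inr (Or.inr (Or.inl ⟨hr (Or.inr h43.2), Or.inr h43⟩))))
  obtain ⟨M, hM, hM', ρ, hM0, h⟩ := tSp4 m m' hm hm' h4 h4' hne h34 h43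
  rcases h with ⟨h1, h2, h3⟩ | ⟨h1, h2, h3⟩
  · exact Or.inr (Or.inl (nat_unit hM hM' hM0 ρ h1 h2 h3))
  · obtain ⟨ρ, g1, g2⟩ := nat_unit hM' hM hM0 ρ h1 h2 h3
    exact Or.inr (Or.inr (Or.inl ⟨ρ, by rwa [mul_comm], g2⟩))

/-- Equal `m`, all characters of `D` indefinite. -/
theorem all_ind {T T' : AV} {m r : ℕ} (D : Cyc T m) (D' : Cyc T' m)
    (h : ∀ u, 0 < D.p u ∧ D.p u < r) : Cpg D D' r r :=
  Or.inr (Or.inr (Or.inr (Or.inl ⟨rfl, Or.inr fun g hg u => (hg u (h u).1 (h u).2).symm⟩)))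

theorem un3 : ∀ u s : (ZMod 3)ˣ, u = s ∨ u = -s := by decide

theorem un4 : ∀ u s : (ZMod 4)ˣ, u = s ∨ u = -s := by decide

theorem un {m : ℕ} (hm : m = 3 ∨ m = 4) (u s : (ZMod m)ˣ) : u = s ∨ u = -s := by
  rcases hm with rfl | rfl
  · exact un3 u s
  · exact un4 u s

theorem ind1 {T : AV} {m r : ℕ} (D : Cyc T m) (hD : ∀ s, D.p s + D.p (-s) = r)
    (hm : m = 3 ∨ m = 4) {s : (ZMod m)ˣ} (h1 : 0 < D.p s) (h2 : D.p s < r) :
    ∀ u, 0 < D.p u ∧ D.p u < r := by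
  intro u
  have := hD s
  rcases un hm u s with rfl | rfl
  · exact ⟨h1, h2⟩
  · omega

end Cpe_aux

open Cpe_aux

theorem tCpe : S_Cpe := by
  intro T T' m m' r r' D D' hg hg' h h'
  by_cases hrr : r = r'
  swap
  · exact Or.inl hrr
  subst hrr
  have hD : ∀ s, D.p s + D.p (-s) = r := fun s =>
    (tDim tPj tTw (tBas tPj) T m r D hg.hm hg.dim s).2
  have h4 : m % 4 ≠ 2 := by
    rcases h with ⟨h, -⟩ | ⟨h, -⟩
    · omega
    · exact h.2.1
  have h4' : m' % 4 ≠ 2 := by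
    rcases h' with ⟨h, -⟩ | ⟨h, -⟩
    · omega
    · exact h.2.1
  by_cases hmm : m = m'
  swap
  · refine diff D D' hg.hm hg'.hm h4 h4' hmm fun h3 => ?_
    rcases h with ⟨-, h, -⟩ | ⟨h, -⟩
    · exact h
    rcases h' with ⟨-, h', -⟩ | ⟨h', -⟩
    · exact h'
    by_contra hr
    have h2 : r = 2 := by
      have := h.2.2.1
      omega
    subst h2
    rcases h3 with rfl | rfl
    · exact h.2.2.2.1 ⟨1, rfl⟩
    · exact h'.2.2.2.1 ⟨1, rfl⟩
  subst hmm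
  rcases h with ⟨hm, hr, s, hs⟩ | ⟨hc, hsg⟩
  · exact all_ind D D' (ind1 D hD hm (s := s) (by omega) (by omega))
  rcases h' with ⟨hm, hr, s, hs⟩ | ⟨hc', hsg'⟩
  · -- `m = 3, 4`, `r ≥ 3`
    have hm3 : 3 ≤ m := hc.1
    have hlt : m < r + 1 := by
      have h1 : m ≠ r + 1 := fun h => hc.2.2.2.1 (h ▸ dvd_rfl)
      rcases hm with hm | hm <;> omega
    have h1m : 1 < m := by omega
    have hc1 : (1 : ℕ).Coprime m := Nat.coprime_one_left m
    have e1 := sg_eq (by omega : 0 < m) hc.2.2.2.1 hc1 h1m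
    have e2 : D.p 1 = sg m r (fun _ => 1) 1 := by
      have : Fact (1 < m) := ⟨h1m⟩
      rw [hsg, Units.val_one, ZMod.val_one]
    have h5 : 1 ≤ t m r 1 := by
      unfold t
      rw [mul_one]
      exact (Nat.one_le_div_iff (by omega)).2 hlt.le
    have h6 : 3 * t m r 1 ≤ r + 1 := by
      unfold t
      rw [mul_one]
      calc 3 * ((r + 1) / m) ≤ m * ((r + 1) / m) := Nat.mul_le_mul_right _ hm3
        _ ≤ r + 1 := Nat.mul_div_le _ _
    exact all_ind D D' (ind1 D hD hm (s := 1) (by omega) (by omega))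
  · refine Or.inr (Or.inr (Or.inr (Or.inl ⟨rfl, Or.inl ⟨1, fun u => ?_⟩⟩)))
    change D.p u = D'.p (1 * u)
    rw [one_mul, hsg, hsg']

theorem tP2e : S_P2e := by
  intro T m r D hG hK
  rcases Nat.lt_or_ge 2 r with hr | hr
  · have h1 := (tDim tPj tTw (tBas tPj) T m r D hG.hm hG.dim 1).2
    rcases Nat.lt_or_ge (D.p 1) 2 with h2 | h2
    · exact ⟨-1, by omega⟩
    · exact ⟨1, h2⟩
  · have hr2 : r = 2 := le_antisymm hr hG.hr
    subst hr2
    rcases hK with ⟨-, h, -⟩ | ⟨hc, hsg⟩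
    · omega
    · obtain ⟨hm3, -, -, hd, p, hp2, hp, hpm⟩ := hc
      have hm4 : 3 < m := by
        have h3 : m ≠ 3 := by
          rintro rfl
          exact hd ⟨1, rfl⟩
        omega
      have hc1 : (1 : ℕ).Coprime m := Nat.coprime_one_left m
      have e1 := sg_eq (by omega : 0 < m) hd hc1 (by omega)
      refine ⟨1, ?_⟩
      have : Fact (1 < m) := ⟨by omega⟩
      have ht : t m 2 1 = 0 := (t_zero (by omega)).2 (by omega)
      rw [hsg, Units.val_one, ZMod.val_one, e1, ht]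

end SEE
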