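import Pool.Agent.Lib.SE.Big.Pr3

/-!
# PROJECT SE-E: the signatures of `y ^ m = f(x)` if a prime less than `deg f` does not divide `m`
(helper42)
-/

set_option autoImplicit false

noncomputable section

namespace SEE

open HC HC.E HC.SE SEB SEB.Pr3_aux

/-- `m ≥ 3`, `deg f = r + 1 ≥ 3` is not divisible by `m`, and some prime less than `deg f` does not
divide `m` (for example `m` odd). -/
def Cl (m r : ℕ) : Prop := 3 ≤ m ∧ 2 ≤ r ∧ ¬ m ∣ r + 1 ∧ ∃ p ≤ r, p.Prime ∧ ¬ p ∣ m

/-- THE SIGNATURES. -/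
def S_Pr4 : Prop :=
  ∀ m r : ℕ, Cl m r →
    AperC m r (fun _ => 1) ∧ ∃ u < m, u.Coprime m ∧ 0 < sg m r (fun _ => 1) u ∧
      0 < sg m r (fun _ => 1) (m - u) ∧
      (sg m r (fun _ => 1) u ≠ sg m r (fun _ => 1) (m - u) ∨ r = 2)

namespace Pr4_aux

/-- multiplication by `q` -/
lemma mulq {m n q : ℕ} (hq : 2 ≤ q) (h0 : 0 < n) (h : n < m) :
    ∃ a, m < n * q ^ (a + 1) ∧ n * q ^ a ≤ m := by
  classical
  have hex : ∃ a, m < n * q ^ a := ⟨m, lt_of_lt_of_le (Nat.lt_pow_self (by omega : 1 < q))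
    (Nat.le_mul_of_pos_left _ h0)⟩
  obtain ⟨b, hb⟩ : ∃ b, Nat.find hex = b := ⟨_, rfl⟩
  have h1 := Nat.find_spec hex
  rw [hb] at h1
  have hb0 : b ≠ 0 := by
    rintro rfl
    rw [pow_zero, mul_one] at h1
    omega
  obtain ⟨a, rfl⟩ : ∃ a, b = a + 1 := ⟨b - 1, by omega⟩
  have h2 := Nat.find_min hex (m := a) (by omega)
  exact ⟨a, h1, by omega⟩

/-- the least prime which does not divide `m` -/
lemma least {m r : ℕ} (h : ∃ p ≤ r, p.Prime ∧ ¬ p ∣ m) :
    ∃ q ≤ r, q.Prime ∧ ¬ q ∣ m ∧ ∀ a, 1 < a → a < q → ¬ a.Coprime m := by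
  classical
  have hex : ∃ p, p.Prime ∧ ¬ p ∣ m := by
    obtain ⟨p, -, h1⟩ := h
    exact ⟨p, h1⟩
  obtain ⟨p, hp, h1⟩ := h
  refine ⟨Nat.find hex, (Nat.find_min' hex h1).trans hp, (Nat.find_spec hex).1,
    (Nat.find_spec hex).2, ?_⟩
  intro a ha haq hc
  have h2 : a.minFac.Prime := Nat.minFac_prime (by omega)
  have h3 : a.minFac < Nat.find hex := (Nat.minFac_le (by omega)).trans_lt haq
  have h4 := Nat.find_min hex h3
  have h5 : a.minFac ∣ m := by
    by_contra h6
    exact h4 ⟨h2, h6⟩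
  have h6 : a.minFac ∣ 1 := by
    have := Nat.dvd_gcd (Nat.minFac_dvd a) h5
    rwa [hc] at this
  exact h2.one_lt.ne' (Nat.dvd_one.1 h6)

/-- multiplication by `j` does not preserve the set -/
lemma key {m r j q : ℕ} (hq : q.Prime) (hqr : q ≤ r) (hqm : ¬ q ∣ m) (hjq : q ≤ j)
    (hjc : j.Coprime m) (hj : (r + 1) * j < m) :
    ∃ x, 0 < x ∧ x < m ∧ x.Coprime m ∧ (r + 1) * x < m ∧ x * j < m ∧
      ¬ ((r + 1) * (x * j) < m ∨ (r + 1) * (m - x * j) < m) := by
  have hq2 := hq.two_le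
  have h0 : 0 < (r + 1) * j := Nat.mul_pos (Nat.succ_pos r) (by omega)
  obtain ⟨a, h1, h3⟩ := mulq hq2 h0 hj
  have hne : (r + 1) * j * q ^ a ≠ m := by
    intro h
    have h4 : j ∣ m := ⟨(r + 1) * q ^ a, by rw [← h]; ring⟩
    have h5 : j ∣ 1 := by
      have := Nat.dvd_gcd dvd_rfl h4
      rwa [hjc] at this
    have := Nat.le_of_dvd one_pos h5
    omega
  have h4 : (r + 1) * j * q ^ a < m := lt_of_le_of_ne h3 hne
  have hc : (q ^ (a + 1)).Coprime m := Nat.Coprime.pow_left _ ((Nat.Prime.coprime_iff_not_dvd hq).2 hqm)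
  have hx0 : 0 < q ^ (a + 1) := pow_pos hq.pos _
  have e1 : q ^ (a + 1) = q * q ^ a := pow_succ' q a
  have h5 : (r + 1) * q ^ (a + 1) < m := by
    calc (r + 1) * q ^ (a + 1) = (r + 1) * q * q ^ a := by rw [e1]; ring
      _ ≤ (r + 1) * j * q ^ a := Nat.mul_le_mul_right _ (Nat.mul_le_mul_left _ hjq)
      _ < m := h4
  have e2 : (r + 1) * (q ^ (a + 1) * j) = q * ((r + 1) * j * q ^ a) := by rw [e1]; ring
  have e3 : (r + 1) * (q ^ (a + 1) * j) = (r + 1) * j * q ^ (a + 1) := by ring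
  have h6 : (r + 1) * (q ^ (a + 1) * j) < r * m := by
    rw [e2]
    calc q * ((r + 1) * j * q ^ a) < q * m := (Nat.mul_lt_mul_left hq.pos).2 h4
      _ ≤ r * m := Nat.mul_le_mul_right _ hqr
  have h7 : r * m + m = (r + 1) * m := by ring
  have h8 : q ^ (a + 1) * j < m := by
    by_contra h9
    have h10 : (r + 1) * m ≤ (r + 1) * (q ^ (a + 1) * j) := Nat.mul_le_mul_left _ (by omega)
    omega
  have h9 : q ^ (a + 1) ≤ (r + 1) * q ^ (a + 1) := Nat.le_mul_of_pos_left _ (Nat.succ_pos r)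
  refine ⟨q ^ (a + 1), hx0, by omega, hc, h5, h8, ?_⟩
  rintro (h | h)
  · omega
  · have e4 : (r + 1) * (m - q ^ (a + 1) * j) + (r + 1) * (q ^ (a + 1) * j) = (r + 1) * m := by
      rw [← Nat.mul_add, Nat.sub_add_cancel h8.le]
    omega

/-- `t` in an interval -/
lemma t_eq {m r u k : ℕ} (h1 : k * m ≤ (r + 1) * u) (h2 : (r + 1) * u < (k + 1) * m) :
    t m r u = k := by
  unfold t
  exact Nat.div_eq_of_lt_le h1 h2

/-- the unit, `m` even -/
lemma unit {m r q : ℕ} (hm3 : 3 ≤ m) (hgt : r + 1 < m) (hev : 2 ∣ m) (hq : q.Prime) (hqr : q ≤ r)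
    (hqm : ¬ q ∣ m) : ∃ u < m, u.Coprime m ∧ 1 ≤ t m r u ∧ t m r u < r ∧ 2 * t m r u ≠ r := by
  have hq3 : 3 ≤ q := by
    have h1 := hq.two_le
    have h2 : q ≠ 2 := fun h => hqm (h ▸ hev)
    omega
  have hqo : Odd q := hq.odd_of_ne_two (by omega)
  obtain ⟨K, h1, h2⟩ := mulq hq.two_le (by omega : 0 < r + 1) hgt
  have hne : (r + 1) * q ^ K ≠ m := by
    intro h
    rcases Nat.eq_zero_or_pos K with h5 | h5
    · rw [h5, pow_zero, mul_one] at h
      omega
    · exact hqm (by rw [← h]; exact Dvd.dvd.mul_left (dvd_pow_self q h5.ne') _)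
  have h3 : (r + 1) * q ^ K < m := lt_of_le_of_ne h2 hne
  have e1 : (r + 1) * q ^ (K + 1) = q * ((r + 1) * q ^ K) := by rw [pow_succ']; ring
  have h4 : (r + 1) * q ^ (K + 1) < q * m := by
    rw [e1]
    exact (Nat.mul_lt_mul_left hq.pos).2 h3
  have hcK : ∀ k, (q ^ k).Coprime m := fun k =>
    Nat.Coprime.pow_left _ ((Nat.Prime.coprime_iff_not_dvd hq).2 hqm)
  have hlt : q ^ (K + 1) < m := by
    have h5 : (r + 1) * q ^ (K + 1) < (r + 1) * m :=
      h4.trans_le (Nat.mul_le_mul_right _ (by omega))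
    exact lt_of_mul_lt_mul_left' h5
  have ht1 : 1 ≤ t m r (q ^ (K + 1)) := by
    unfold t
    exact (Nat.one_le_div_iff (by omega)).2 h1.le
  have ht2 : t m r (q ^ (K + 1)) < q := by
    unfold t
    exact (Nat.div_lt_iff_lt_mul (by omega)).2 h4
  by_cases hr : 2 * t m r (q ^ (K + 1)) = r
  swap
  · exact ⟨_, hlt, hcK _, ht1, by omega, hr⟩
  -- `r` is even
  obtain ⟨h, rfl⟩ := hev
  obtain ⟨ρ, hρ⟩ : ∃ ρ, r = 2 * ρ := ⟨_, hr.symm⟩
  have hρ2 : 2 ≤ ρ := by omega
  subst hρ
  have hq1 : (2 * ρ + 1) * (h + 0) = ρ * (2 * h) + h := by ring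
  rcases Nat.even_or_odd h with he | ho
  · -- `4 ∣ m`
    have h5 : ρ * (2 * h) ≤ (2 * ρ + 1) * q ^ (K + 1) := by
      have h6 : t (2 * h) (2 * ρ) (q ^ (K + 1)) = ρ := by omega
      unfold t at h6
      have := Nat.div_mul_le_self ((2 * ρ + 1) * q ^ (K + 1)) (2 * h)
      rwa [h6] at this
    have h6 : h ≤ (2 * ρ + 1) * q ^ K := by
      by_contra h7
      have h8 : q * ((2 * ρ + 1) * q ^ K) < q * h := (Nat.mul_lt_mul_left hq.pos).2 (by omega)
      have h9 : q * h ≤ 2 * ρ * h := Nat.mul_le_mul_right _ hqr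
      have h10 : 2 * ρ * h = ρ * (2 * h) := by ring
      omega
    have e2 : (2 * ρ + 1) * (h + q ^ K) = ρ * (2 * h) + h + (2 * ρ + 1) * q ^ K := by ring
    have e3 : (ρ + 1) * (2 * h) = ρ * (2 * h) + 2 * h := by ring
    have e4 : (ρ + 1 + 1) * (2 * h) = ρ * (2 * h) + 4 * h := by ring
    have ht : t (2 * h) (2 * ρ) (h + q ^ K) = ρ + 1 := t_eq (by omega) (by omega)
    refine ⟨h + q ^ K, ?_, ?_, by omega, by omega, by omega⟩
    · have h7 : 5 * q ^ K ≤ (2 * ρ + 1) * q ^ K := Nat.mul_le_mul_right _ (by omega)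
      omega
    · refine Nat.Coprime.mul_right ?_ ?_
      · rw [Nat.coprime_two_right]
        exact he.add_odd hqo.pow
      · have h8 : (q ^ K).Coprime h := (hcK K).coprime_mul_left_right
        rw [Nat.coprime_iff_gcd_eq_one] at h8 ⊢
        rwa [Nat.gcd_self_add_left]
  · -- `m = 2 mod 4`
    have hm7 : 4 * (2 * ρ + 1) < (2 * ρ - 1) * (2 * h) := by
      rcases Nat.lt_or_ge 2 ρ with h5 | h5
      · have h6 : 5 * (2 * h) ≤ (2 * ρ - 1) * (2 * h) := Nat.mul_le_mul_right _ (by omega)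
        omega
      · have h6 : ρ = 2 := by omega
        subst h6
        have h7 : h ≠ 3 := by
          rintro rfl
          have h8 : q ≤ 4 := hqr
          have h9 : q = 3 ∨ q = 4 := by omega
          rcases h9 with rfl | rfl
          · exact hqm ⟨2, rfl⟩
          · exact absurd hq (by decide)
        obtain ⟨k, hk⟩ := ho
        omega
    obtain ⟨i, hi1, hi2, hi3⟩ : ∃ i, 1 ≤ i ∧ 2 * h ≤ (2 * ρ + 1) * 2 ^ (i + 1) ∧
        (2 * ρ + 1) * 2 ^ (i + 1) < (2 * ρ - 1) * (2 * h) := by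
      obtain ⟨a, g1, g2⟩ := mulq (le_refl 2) (by omega : 0 < 2 * ρ + 1) hgt
      rcases Nat.eq_zero_or_pos a with ha | ha
      · subst ha
        refine ⟨1, le_refl 1, ?_, ?_⟩
        · have : (2 * ρ + 1) * 2 ^ (1 + 1) = 2 * ((2 * ρ + 1) * 2 ^ (0 + 1)) := by ring
          omega
        · have : (2 * ρ + 1) * 2 ^ (1 + 1) = 4 * (2 * ρ + 1) := by ring
          omega
      · refine ⟨a, ha, g1.le, ?_⟩
        have g3 : (2 * ρ + 1) * 2 ^ (a + 1) = 2 * ((2 * ρ + 1) * 2 ^ a) := by rw [pow_succ']; ring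
        have g4 : 3 * (2 * h) ≤ (2 * ρ - 1) * (2 * h) := Nat.mul_le_mul_right _ (by omega)
        omega
    have e1 : (2 * ρ + 1) * 2 ^ (i + 1) = 2 * ((2 * ρ + 1) * 2 ^ i) := by rw [pow_succ']; ring
    have e2 : (2 * ρ + 1) * (h + 2 ^ i) = ρ * (2 * h) + h + (2 * ρ + 1) * 2 ^ i := by ring
    have e3 : (2 * ρ - 1) * (2 * h) + 2 * h = 2 * ρ * (2 * h) := by
      have : 2 * ρ = (2 * ρ - 1) + 1 := by omega
      conv_rhs => rw [this]
      ring
    have e4 : 2 * ρ * (2 * h) = 2 * (ρ * (2 * h)) := by ring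
    have ht1 : ρ + 1 ≤ t (2 * h) (2 * ρ) (h + 2 ^ i) := by
      unfold t
      rw [Nat.le_div_iff_mul_le (by omega), e2]
      have : (ρ + 1) * (2 * h) = ρ * (2 * h) + 2 * h := by ring
      omega
    have ht2 : t (2 * h) (2 * ρ) (h + 2 ^ i) < 2 * ρ := by
      unfold t
      rw [Nat.div_lt_iff_lt_mul (by omega), e2]
      omega
    refine ⟨h + 2 ^ i, ?_, ?_, by omega, by omega, by omega⟩
    · by_contra hcon
      have h8 : (2 * ρ + 1) * (2 * h) ≤ (2 * ρ + 1) * (h + 2 ^ i) :=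
        Nat.mul_le_mul_left _ (by omega)
      have h9 : (2 * ρ + 1) * (2 * h) = 2 * (ρ * (2 * h)) + 2 * h := by ring
      omega
    · refine Nat.Coprime.mul_right ?_ ?_
      · rw [Nat.coprime_two_right]
        exact ho.add_even ((Nat.even_pow.2 ⟨even_two, by omega⟩))
      · have h8 : (2 ^ i).Coprime h := Nat.Coprime.pow_left _ (Nat.coprime_two_left.2 ho)
        rw [Nat.coprime_iff_gcd_eq_one] at h8 ⊢
        rwa [Nat.gcd_self_add_left]

end Pr4_aux

open Pr4_aux

theorem tPr4 : S_Pr4 := by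
  rintro m r ⟨h3, h2, hd, hp⟩
  by_cases ho : Odd m
  · exact tPr3 m r ho h3 h2 hd
  have hev : 2 ∣ m := even_iff_two_dvd.1 (Nat.not_odd_iff_even.1 ho)
  obtain ⟨q, hqr, hq, hqm, hmin⟩ := least hp
  have hm : 0 < m := by omega
  have hm1 : 1 < m := by omega
  have hpos : ∀ u, u.Coprime m → 0 < u := by
    intro u hu
    rcases Nat.eq_zero_or_pos u with h | h
    · rw [h, Nat.coprime_zero_left] at hu
      omega
    · exact h
  have hsubc : ∀ u, u < m → u.Coprime m → (m - u).Coprime m := fun u hu hc =>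
    (Nat.coprime_self_sub_left hu.le).2 hc
  have hprod : ∀ u, u < m → u.Coprime m → sg m r (fun _ => 1) u = r - t m r u ∧
      sg m r (fun _ => 1) (m - u) = t m r u ∧ t m r u ≤ r := by
    intro u hu hc
    have h1 := t_add hm hd hc hu
    have h4 := hpos u hc
    rw [sg_eq hm hd hc hu, sg_eq hm hd (hsubc u hu hc) (by omega)]
    refine ⟨rfl, by omega, by omega⟩
  have hc1 : (1 : ℕ).Coprime m := Nat.coprime_one_left m
  have hne : m ≠ r + 1 := fun h => hd (h ▸ dvd_rfl)
  rcases lt_or_gt_of_ne hne with hlt | hgt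
  · -- many points
    refine ⟨?_, 1, hm1, hc1, ?_⟩
    · intro g hg hgc H
      have h1 := H 1 hm1 hc1
      obtain ⟨p1, p2, p3⟩ := hprod g hg hgc
      obtain ⟨q1, q2, q3⟩ := hprod 1 hm1 hc1
      rw [one_mul, Nat.mod_eq_of_lt hg, p1, p2, q1, q2] at h1
      obtain ⟨a, ha⟩ := Nat.exists_eq_add_of_le p3
      obtain ⟨b, hb⟩ := Nat.exists_eq_add_of_le q3
      have h4 : r - t m r g = a := by omega
      have h5 : r - t m r 1 = b := by omega
      rw [h4, h5] at h1
      have h6 : t m r g = t m r 1 ∨ t m r g = b := by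
        have h7 : ((t m r g : ℤ) - t m r 1) * ((t m r g : ℤ) - b) = 0 := by
          have e1 : (t m r g : ℤ) + a = t m r 1 + b := by
            have : t m r g + a = t m r 1 + b := by omega
            exact_mod_cast this
          have e2 : (a : ℤ) * t m r g = b * t m r 1 := by exact_mod_cast h1
          have e3 : (a : ℤ) = t m r 1 + b - t m r g := by linarith
          rw [e3] at e2
          linarith
        rcases mul_eq_zero.1 h7 with h | h
        · left
          have : (t m r g : ℤ) = t m r 1 := by linarith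
          exact_mod_cast this
        · right
          have : (t m r g : ℤ) = b := by linarith
          exact_mod_cast this
      rcases h6 with h6 | h6
      · left
        exact t_inj hm hlt h6
      · right
        have h7 := t_add hm hd hc1 hm1
        exact t_inj hm hlt (by omega)
    · obtain ⟨q1, q2, q3⟩ := hprod 1 hm1 hc1
      have h5 : 1 ≤ t m r 1 := by
        unfold t
        rw [mul_one]
        exact (Nat.one_le_div_iff hm).2 hlt.le
      have h6 : 3 * t m r 1 ≤ r + 1 := by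
        unfold t
        rw [mul_one]
        calc 3 * ((r + 1) / m) ≤ m * ((r + 1) / m) := Nat.mul_le_mul_right _ h3
          _ ≤ r + 1 := Nat.mul_div_le _ _
      omega
  · -- few points
    have hz : ∀ u, u < m → u.Coprime m → (sg m r (fun _ => 1) u * sg m r (fun _ => 1) (m - u) = 0 ↔
        (r + 1) * u < m ∨ (r + 1) * (m - u) < m) := by
      intro u hu hc
      obtain ⟨q1, q2, q3⟩ := hprod u hu hc
      have h1 := t_add hm hd hc hu
      rw [q1, q2, Nat.mul_eq_zero, ← t_zero hm, ← t_zero hm]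
      omega
    refine ⟨?_, ?_⟩
    · intro g hg hgc H
      have hg0 := hpos g hgc
      -- the set is stable
      have hst : ∀ u, u < m → u.Coprime m → (((r + 1) * ((u * g) % m) < m ∨
          (r + 1) * (m - (u * g) % m) < m) ↔ ((r + 1) * u < m ∨ (r + 1) * (m - u) < m)) := by
        intro u hu hc
        have h1 := H u hu hc
        have h4 : (u * g) % m < m := Nat.mod_lt _ hm
        have h5 : ((u * g) % m).Coprime m := by
          have h6 : (u * g).Coprime m := Nat.Coprime.mul_left hc hgc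
          rw [Nat.coprime_iff_gcd_eq_one, ← Nat.gcd_rec]
          exact Nat.coprime_iff_gcd_eq_one.1 h6.symm
        rw [← hz _ h4 h5, ← hz u hu hc, h1]
      have h1 := (hst 1 hm1 hc1).2 (Or.inl (by rw [mul_one]; exact hgt))
      rw [one_mul, Nat.mod_eq_of_lt hg] at h1
      by_contra hne
      rw [not_or] at hne
      rcases h1 with h1 | h1
      · have hgq : q ≤ g := by
          by_contra hcon
          exact hmin g (by omega) (by omega) hgc
        obtain ⟨x, hx0, hxp, hxc, hx1, hx2, hx3⟩ := key hq hqr hqm hgq hgc h1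
        have h3 := (hst x hxp hxc).2 (Or.inl hx1)
        rw [Nat.mod_eq_of_lt hx2] at h3
        exact hx3 h3
      · have hgq : q ≤ m - g := by
          by_contra hcon
          exact hmin (m - g) (by omega) (by omega) (hsubc g hg hgc)
        obtain ⟨x, hx0, hxp, hxc, hx1, hx2, hx3⟩ :=
          key hq hqr hqm hgq (hsubc g hg hgc) h1
        have h3 := (hst x hxp hxc).2 (Or.inl hx1)
        have hx5 : 0 < x * (m - g) := Nat.mul_pos hx0 (by omega)
        have h4 : (x * g) % m = m - x * (m - g) := by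
          have h5 : x * g + x * (m - g) = x * m := by
            rw [← Nat.mul_add, Nat.add_sub_cancel' hg.le]
          have h6 : x * g = (m - x * (m - g)) + m * (x - 1) := by
            obtain ⟨x', rfl⟩ : ∃ x', x = x' + 1 := ⟨x - 1, by omega⟩
            rw [Nat.add_sub_cancel]
            have h7 : (x' + 1) * m = m * x' + m := by ring
            omega
          rw [h6, Nat.add_mul_mod_self_left, Nat.mod_eq_of_lt (by omega)]
        rw [h4] at h3
        apply hx3
        rw [Nat.sub_sub_self hx2.le] at h3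
        exact h3.symm
    · obtain ⟨u, hu, hc, h4, h5, h6⟩ := unit h3 hgt hev hq hqr hqm
      obtain ⟨q1, q2, q3⟩ := hprod u hu hc
      refine ⟨u, hu, hc, ?_, ?_, ?_⟩
      · omega
      · omega
      · left
        omega

end SEE
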