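import Pool.Agent.Lib.SE.E.Pr4
import Pool.Agent.Lib.SE.R.Spec2
import Pool.Agent.Lib.SE.Q.SpecH
import Pool.Agent.Lib.SE.Big.Asm7

/-!
# PROJECT SE-E: the final theorem with very general complex branch points, larger class of `m`
(helper42, after helper45's `SE/C/Spec.lean`)

The class: `y ^ m = f(x)`, `m` not `2 mod 4`, `f` of degree `n = r + 1` not divisible by `m`, some prime less
than `n` does not divide `m` (for example `m` odd), distinct complex roots.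
-/

set_option autoImplicit false

open Module

noncomputable section

namespace SEE

open HC HC.E HC.SE SEB SEQ SE

/-- The admissible pairs `(m, r)`. -/
def Cle (m r : ℕ) : Prop :=
  3 ≤ m ∧ m % 4 ≠ 2 ∧ 2 ≤ r ∧ ¬ m ∣ r + 1 ∧ ∃ p ≤ r, p.Prime ∧ ¬ p ∣ m

theorem Cle.cl {m r : ℕ} (h : Cle m r) : Cl m r := ⟨h.1, h.2.2.1, h.2.2.2.1, h.2.2.2.2⟩

/-- The meagre sets. -/
def MMe (m r : ℕ) : Set (Fin (r + 1) → ℂ) :=
  {s : Fin (r + 1) → ℂ | Cle m r ∧ Function.Injective s ∧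
    ¬ ∀ T : AV, IsCov m s (fun _ => 1) → ∀ (N : New T m s fun _ => 1) (D : Cyc T m),
      D.Z = N.Z → GFg D r}

/-- `G` is one of the abelian varieties with known Hodge group: (i) of Picard type, `dim G ≥ 3`, with
commutant of `Z` equal to `ℚ(Z)`; or the new part of the Jacobian of `y ^ m = f(x)`, `f` of
degree `n = r + 1 ≥ 3` with distinct roots `s`, `m ≥ 3`, `m` not `2 mod 4`, `n` not divisible by `m`, some
prime less than `n` does not divide `m`, where (ii) `r = 2`, or (iii) `m` is a prime `> r + 1` and the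
commutant of `Z` is `ℚ(Z)`, or (iv) `s` is not in `M m r`. -/
def Gde (M : ℕ → (r : ℕ) → Set (Fin (r + 1) → ℂ)) (G : AV) : Prop :=
  (∃ (m : ℕ) (Z : Module.End ℂ G.V), IsPic G m Z ∧ 3 ≤ finrank ℂ G.V ∧ EndQ G Z) ∨
  ∃ (m r : ℕ) (s : Fin (r + 1) → ℂ) (D : New G m s fun _ => 1), Cle m r ∧ Function.Injective s ∧
    (r = 2 ∨ (m.Prime ∧ r + 1 < m ∧ EndQ G D.Z) ∨ s ∉ M m r)

/-- The kinds of good factors, in terms of the signatures. -/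
def Kde {T : AV} {m : ℕ} (D : Cyc T m) (r : ℕ) : Prop :=
  ((m = 3 ∨ m = 4) ∧ 3 ≤ r ∧ ∃ s, D.p s = 1) ∨
    Cle m r ∧ ∀ u : (ZMod m)ˣ, D.p u = sg m r (fun _ => 1) (u : ZMod m).val

/-- **Cp**: kinds are compatible. -/
def S_Cpe : Prop :=
  ∀ (T T' : AV) (m m' r r' : ℕ) (D : Cyc T m) (D' : Cyc T' m'), GFg D r → GFg D' r' →
    Kde D r → Kde D' r' → Cpg D D' r r'

/-- **Gg**: the explicit class. -/
def S_Gge : Prop :=
  ∀ G : AV, Gde MMe G → IsCM G ∨ ∃ (m r : ℕ) (D : Cyc G m), GFg D r ∧ Kde D r ∧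
    (IsPic G m D.Z ∨ ∃ (s : Fin (r + 1) → ℂ) (N : New G m s fun _ => 1),
      N.Z = D.Z ∧ IsCov m s fun _ => 1)

/-- **P2**: a character with `2 ≤ p s`. -/
def S_P2e : Prop :=
  ∀ (T : AV) (m r : ℕ) (D : Cyc T m), GFg D r → Kde D r → ∃ s, 2 ≤ D.p s

/-- **THE FINAL THEOREM.** -/
def FinE : Prop :=
  ∃ M : ℕ → (r : ℕ) → Set (Fin (r + 1) → ℂ), (∀ m r, IsMeagre (M m r)) ∧
  ∀ (A B T : AV) (N' : ℕ) (G : Fin N' → AV), IsCM A → (∀ n, Gde M (G n) ∨ IsRM (G n)) →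
  IsProdE B A G →
  ∀ (q N : ℕ) (J : Fin q → AV) (j : Fin N → Fin q) (m : Fin q → ℕ)
    (Z : ∀ i, Module.End ℂ (J i).V) (E : ∀ i, (J i).V →ₗ[ℝ] (J i).V →ₗ[ℝ] ℝ)
    (ψ : T.V ≃ₗ[ℂ] B.V × (∀ n, (J (j n)).V)),
    (∀ i, Fct (J i) (m i) (Z i)) → (∀ i, IsPol (J i) (Z i) (E i)) →
    (∀ v ∈ T.L, ∃ k : ℕ, k ≠ 0 ∧ k • (ψ v).1 ∈ B.L ∧ ∀ n, k • (ψ v).2 n ∈ (J (j n)).L) →
    ∀ (d : ℕ) (c : Hlg T d), IsHodge T d c → SUK Z E ψ c → Alg2 T d c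

end SEE
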